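import Pool.Agent.MP_39e5ce_co.nc.Main

/-! From convex bodies near a parallelotope to configurations in the cube. -/

noncomputable section

namespace Pool.Agent.MP_39e5ce_co.NC

open Finset Function

variable {d : ℕ}

abbrev Eu (d : ℕ) := EuclideanSpace ℝ (Fin d)

theorem int_tr (K : Set (Eu d)) (v : Eu d) :
    interior ((fun x => x + v) '' K) = (fun x => x + v) '' interior K :=
  ((Homeomorph.addRight v).image_interior K).symm

/-- separation of two non-overlapping translates -/
theorem sepa {K : Set (Eu d)} (hK : Convex ℝ K) (hi : (interior K).Nonempty) {a b : Eu d}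
    (h : Disjoint (interior ((fun x => x + a) '' K)) (interior ((fun x => x + b) '' K))) :
    ∃ f : Eu d →L[ℝ] ℝ, f (a - b) = 1 ∧ ∀ x ∈ K, ∀ y ∈ K, f (x - y) ≤ 1 := by
  have cv : ∀ v : Eu d, Convex ℝ (interior ((fun x => x + v) '' K)) := fun v =>
    (by simpa only [add_comm] using hK.translate v : Convex ℝ ((fun x => x + v) '' K)).interior
  obtain ⟨f, u, h1, h2⟩ := geometric_hahn_banach_open_open (cv b) isOpen_interior (cv a)
    isOpen_interior h.symm
  have key : ∀ x ∈ interior K, ∀ y ∈ interior K, f (x - y) < f (a - b) := fun x hx y hy => by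
    have a1 := h1 (x + b) (by rw [int_tr]; exact ⟨x, hx, rfl⟩)
    have a2 := h2 (y + a) (by rw [int_tr]; exact ⟨y, hy, rfl⟩)
    simp only [map_add, map_sub] at a1 a2 ⊢
    linarith
  obtain ⟨k, hk⟩ := hi
  have F0 : 0 < f (a - b) := by simpa using key k hk k hk
  refine ⟨(f (a - b))⁻¹ • f, inv_mul_cancel₀ F0.ne', fun x hx y hy => ?_⟩
  rw [smul_apply, smul_eq_mul, inv_mul_le_iff₀ F0, mul_one]
  by_contra hc
  push Not at hc
  have p0 := F0.trans hc
  have t0 : 0 ≤ f (a - b) / f (x - y) := (div_pos F0 p0).le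
  have t1 : 0 < 1 - f (a - b) / f (x - y) := sub_pos.2 ((div_lt_one p0).2 hc)
  have := key _ (hK.combo_interior_self_mem_interior hk hx t1 t0 (by ring)) _
    (hK.combo_interior_self_mem_interior hk hy t1 t0 (by ring))
  rw [add_sub_add_left_eq_sub, ← smul_sub, map_smul, smul_eq_mul, div_mul_cancel₀ _ p0.ne'] at this
  exact lt_irrefl _ this

theorem lt_of_int {w x : Eu d} {c : ℝ} (hw : w ≠ 0)
    (hx : x ∈ interior {y : Eu d | inner ℝ w y ≤ c}) : inner ℝ w x < c := by
  have hc : Continuous fun t : ℝ => x + t • w := by fun_prop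
  have hn : (fun t : ℝ => x + t • w) ⁻¹' interior {y : Eu d | inner ℝ w y ≤ c} ∈ nhds (0 : ℝ) :=
    hc.continuousAt.preimage_mem_nhds (by simpa using isOpen_interior.mem_nhds hx)
  obtain ⟨ε, hε, hb⟩ := Metric.mem_nhds_iff.1 hn
  have h1 : inner ℝ w (x + (ε / 2) • w) ≤ c :=
    interior_subset (s := {y : Eu d | inner ℝ w y ≤ c})
      (hb (show ε / 2 ∈ Metric.ball (0 : ℝ) ε by simp [abs_of_pos hε, hε]))
  rw [inner_add_right, inner_smul_right] at h1
  have := mul_pos (half_pos hε) (real_inner_self_pos.2 hw)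
  linarith

/-- a linear functional in the coordinates given by `A` -/
theorem coord (A : Eu d ≃ₗ[ℝ] Eu d) (f : Eu d →ₗ[ℝ] ℝ) (x : Eu d) :
    f (A x) = ∑ j, f (A (EuclideanSpace.single j 1)) * x j := by
  conv_lhs => rw [← (EuclideanSpace.basisFun (Fin d) ℝ).sum_repr x]
  simp [mul_comm]

theorem bound (hd : 4 ≤ d) {K : Set (Eu d)} (hK : Convex ℝ K) (hi : (interior K).Nonempty)
    (T : Eu d ≃ᵃ[ℝ] Eu d) (t : Eu d) (h1 : T '' {x | ∀ i, |x i| ≤ 1} ⊆ K)
    (h2 : K ⊆ (fun x => x + t) '' (T '' {x | ∀ i, |x i| ≤ 1 + 1 / (100 * (d : ℝ))})) {w : Eu d}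
    (V : Finset (Eu d))
    (hV : ∀ v ∈ V, ∀ v' ∈ V, v ≠ v' →
      Disjoint (interior ((fun x => x + v) '' K)) (interior ((fun x => x + v') '' K)))
    (hV' : ∀ v ∈ V, Disjoint (interior ((fun x => x + v) '' K)) (interior K) ∧
      ((fun x => x + v) '' K ∩ K).Nonempty) (hw : ∀ v ∈ V, inner ℝ w v < 0) :
    V.card + 1 ≤ 53 * 3 ^ (d - 4) := by
  classical
  have d4 : (4 : ℝ) ≤ d := by exact_mod_cast hd
  set e : ℝ := 1 / (100 * (d : ℝ)) with he
  have e0 : 0 < e := by positivity
  have V0 : (0 : Eu d) ∉ V := fun h => by simpa using hw 0 h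
  have hdif : ∀ c ∈ insert (0 : Eu d) V, ∃ x ∈ K, ∃ y ∈ K, c = x - y := fun c hc => by
    rcases mem_insert.1 hc with rfl | hc
    · obtain ⟨k, hk⟩ := hi
      exact ⟨k, interior_subset hk, k, interior_subset hk, by simp⟩
    · obtain ⟨_, ⟨y, hy, rfl⟩, hx⟩ := (hV' c hc).2
      exact ⟨_, hx, y, hy, by simp⟩
  have hT : ∀ x y : Eu d, T.linear (x - y) = T x - T y := fun x y => T.toAffineMap.linearMap_vsub x y
  have hco : ∀ (f : Eu d →ₗ[ℝ] ℝ) (s : ℝ) (v : Eu d),
      (fun j => s * (2 * (1 + e)) * f (T.linear (EuclideanSpace.single j 1))) ⬝ᵥ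
        (fun j => T.linear.symm v j / (2 * (1 + e))) = s * f v := fun f s v => by
    conv_rhs => rw [← T.linear.apply_symm_apply v, coord, mul_sum]
    exact sum_congr rfl fun j _ => by field_simp
  have h : Cf e (insert 0 V) (fun v j => T.linear.symm v j / (2 * (1 + e)))
      fun j => -1 * (2 * (1 + e)) * innerₛₗ ℝ w (T.linear (EuclideanSpace.single j 1)) := by
    refine ⟨e0, le_of_eq ?_, ?_, fun c hc j => ?_, fun c hc h0 => ?_, fun a ha b hb hab => ?_⟩
    · rw [he, Fintype.card_fin]; field_simp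
    · exact one_div_le_one_div_of_le (by norm_num) (by linarith)
    · obtain ⟨_, hx, _, hy, rfl⟩ := hdif c hc
      obtain ⟨_, ⟨x, hx', rfl⟩, rfl⟩ := h2 hx
      obtain ⟨_, ⟨y, hy', rfl⟩, rfl⟩ := h2 hy
      rw [add_sub_add_right_eq_sub, ← hT, LinearEquiv.symm_apply_apply, abs_div, abs_of_pos (by linarith : 0 < 2 * (1 + e)),
        div_le_one (by linarith), PiLp.sub_apply]
      linarith [abs_sub (x j) (y j), hx' j, hy' j]
    · rw [hco]
      rcases mem_insert.1 hc with rfl | hc
      · exact absurd (funext fun j => by simp) h0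
      · simpa using hw c hc
    · have hdis : Disjoint (interior ((fun x => x + a) '' K)) (interior ((fun x => x + b) '' K)) := by
        rcases mem_insert.1 ha with rfl | ha <;> rcases mem_insert.1 hb with rfl | hb
        · exact absurd rfl hab
        · simpa using (hV' b hb).1.symm
        · simpa using (hV' a ha).1
        · exact hV a ha b hb hab
      obtain ⟨f, f1, f2⟩ := sepa hK hi hdis
      refine ⟨fun j => 1 * (2 * (1 + e)) * f.toLinearMap (T.linear (EuclideanSpace.single j 1)),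
        ⟨fun c hc => ?_, ?_⟩, ?_⟩
      · obtain ⟨x, hx, y, hy, rfl⟩ := hdif c hc
        have a1 := f2 x hx y hy
        have a2 := f2 y hy x hx
        rw [← neg_sub, map_neg] at a2
        rw [hco, one_mul, abs_le]
        exact ⟨neg_le.1 a2, a1⟩
      · let s : Eu d := WithLp.toLp 2 fun j =>
          if 0 ≤ f (T.linear (EuclideanSpace.single j 1)) then (1 : ℝ) else -1
        have s1 : ∀ j, |s j| ≤ 1 := fun j => by simp only [s]; split_ifs <;> simp
        have a1 := f2 _ (h1 ⟨s, s1, rfl⟩) _ (h1 ⟨-s, fun j => by simpa using s1 j, rfl⟩)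
        have a2 := coord T.linear f.toLinearMap (s - -s)
        rw [← hT] at a1
        have a3 : ∑ j, 2 * |f (T.linear (EuclideanSpace.single j 1))| ≤ 1 := by
          refine le_trans (le_of_eq ?_) (a2.symm.trans_le a1)
          refine sum_congr rfl fun j _ => ?_
          simp only [s, PiLp.sub_apply, PiLp.neg_apply, ContinuousLinearMap.coe_coe]
          split_ifs with g
          · rw [abs_of_nonneg g]; ring
          · rw [abs_of_neg (not_le.1 g)]; ring
        refine le_trans (le_of_eq ?_) (mul_le_of_le_one_right (by linarith) a3)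
        rw [mul_sum]
        refine sum_congr rfl fun j _ => ?_
        rw [abs_mul, abs_of_pos (by linarith : 0 < 1 * (2 * (1 + e))), ContinuousLinearMap.coe_coe]
        ring
      · rw [dotProduct_sub, hco, hco, ← mul_sub, ← map_sub, one_mul]
        exact f1.ge
  have := h.core (by simpa using hd)
  rwa [card_insert_of_notMem V0, Fintype.card_fin] at this

end Pool.Agent.MP_39e5ce_co.NC

end
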