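import Pool.Agent.MP_39e5ce_co.nc.Tri

/-! Configurations near the cube: the three cases put together. -/

noncomputable section

namespace Pool.Agent.MP_39e5ce_co.NC

open Finset Function

variable {α ι : Type} [Fintype ι] [DecidableEq ι] {e : ℝ} {W : Finset α} {P : α → ι → ℝ}
  {φ : ι → ℝ}

/-- a functional that supports in the direction `k` among all the functionals in use -/
theorem Cf.exmax (h : Cf e W P φ) (k : ι) : ∃ ψ, Su e W P ψ ∧ 1 ≤ ψ k ∧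
    (∀ j, j ≠ k → |ψ j| ≤ e) ∧
    ∀ a ∈ W, ∀ b ∈ W, a ≠ b → ∃ ξ, Su e W P ξ ∧ 1 ≤ ξ ⬝ᵥ (P a - P b) ∧ ξ k ≤ ψ k := by
  classical
  have hs := h.sup
  choose! ξ h1 h2 using hs
  obtain ⟨ψ, hψ, hm⟩ := exists_max_image (insert (Pi.single k 1)
    (((W ×ˢ W).filter fun q => q.1 ≠ q.2).image fun q => ξ q.1 q.2)) (fun f : ι → ℝ => f k)
    (insert_nonempty _ _)
  have s : Su e W P ψ := by
    rcases mem_insert.1 hψ with rfl | hψ
    · refine ⟨fun c hc => by simpa using h.bd c hc k, ?_⟩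
      rw [sum_eq_single k (fun j _ hj => by simp [hj]) (by simp)]
      simpa using h.e0.le
    · obtain ⟨q, hq, rfl⟩ := mem_image.1 hψ
      obtain ⟨q1, q2⟩ := mem_filter.1 hq
      exact h1 _ (mem_product.1 q1).1 _ (mem_product.1 q1).2 q2
  have k1 : 1 ≤ ψ k := by simpa using hm _ (mem_insert_self _ _)
  refine ⟨ψ, s, k1, fun j hj => ?_, fun a ha b hb hab => ⟨ξ a b, h1 a ha b hb hab,
    h2 a ha b hb hab, hm _ (mem_insert_of_mem (mem_image.2 ⟨(a, b), mem_filter.2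
      ⟨mem_product.2 ⟨ha, hb⟩, hab⟩, rfl⟩))⟩⟩
  have := s.2
  rw [sum2 hj] at this
  linarith [le_abs_self (ψ k),
    sum_nonneg fun (x : {x // x ≠ j ∧ x ≠ k}) (_ : x ∈ univ) => abs_nonneg (ψ x)]

/-- two almost equal large coefficients -/
theorem Cf.tri (h : Cf e W P φ) {i k : ι} (ik : i ≠ k) {η : ℝ} (η0 : 0 ≤ η)
    (η1 : η + 3 * e ≤ 2 / 7) (hs : ∀ a ∈ W, -η ≤ P a i + P a k) (k0 : 0 ≤ φ k) (ki : φ k ≤ φ i)
    (ik' : φ i ≤ 2 * φ k) : 81 * W.card ≤ 53 * 3 ^ Fintype.card ι := by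
  obtain ⟨ψ₁, s1, a1, a2, a3⟩ := h.exmax i
  obtain ⟨ψ₂, s2, b1, b2, b3⟩ := h.exmax k
  have e0 := h.e0
  have e2 := h.e2
  have a4 := abs_le.1 (a2 k ik.symm)
  have b4 := abs_le.1 (b2 i ik)
  have hd : 0 < ψ₁ i * ψ₂ k - ψ₁ k * ψ₂ i := by nlinarith
  have u0 : 0 ≤ (φ i * ψ₂ k - φ k * ψ₂ i) / (ψ₁ i * ψ₂ k - ψ₁ k * ψ₂ i) :=
    div_nonneg (by nlinarith) hd.le
  have v0 : 0 ≤ (φ k * ψ₁ i - φ i * ψ₁ k) / (ψ₁ i * ψ₂ k - ψ₁ k * ψ₂ i) :=
    div_nonneg (by nlinarith) hd.le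
  have hi : φ i = (φ i * ψ₂ k - φ k * ψ₂ i) / (ψ₁ i * ψ₂ k - ψ₁ k * ψ₂ i) * ψ₁ i +
      (φ k * ψ₁ i - φ i * ψ₁ k) / (ψ₁ i * ψ₂ k - ψ₁ k * ψ₂ i) * ψ₂ i := by
    rw [div_mul_eq_mul_div, div_mul_eq_mul_div, ← add_div, eq_div_iff hd.ne']; ring
  have hk : φ k = (φ i * ψ₂ k - φ k * ψ₂ i) / (ψ₁ i * ψ₂ k - ψ₁ k * ψ₂ i) * ψ₁ k +
      (φ k * ψ₁ i - φ i * ψ₁ k) / (ψ₁ i * ψ₂ k - ψ₁ k * ψ₂ i) * ψ₂ k := by
    rw [div_mul_eq_mul_div, div_mul_eq_mul_div, ← add_div, eq_div_iff hd.ne']; ring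
  generalize (φ i * ψ₂ k - φ k * ψ₂ i) / (ψ₁ i * ψ₂ k - ψ₁ k * ψ₂ i) = u at *
  generalize (φ k * ψ₁ i - φ i * ψ₁ k) / (ψ₁ i * ψ₂ k - ψ₁ k * ψ₂ i) = v at *
  rcases le_total u v with g | g
  · have := h.tri0 ik η0 η1 hs s1 s2 b3 u0 g hi hk
    rw [← card2 ik, pow_add]
    omega
  · have := h.tri0 ik.symm η0 η1 (fun a ha => by linarith [hs a ha]) s2 s1 a3 v0 g
      (by linarith) (by linarith)
    rw [← card2 ik.symm, pow_add]
    omega

theorem Cf.core0 (h : Cf e W P φ) (h0 : ∀ j, 0 ≤ φ j) (hd : 4 ≤ Fintype.card ι) :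
    81 * W.card ≤ 53 * 3 ^ Fintype.card ι := by
  have e0 := h.e0
  have e1 := h.e1
  have e2 := h.e2
  have hn : ∀ s : Finset ι, s.card ≤ 2 → sᶜ.Nonempty := fun s hs =>
    card_pos.1 (by rw [card_compl]; omega)
  obtain ⟨i, -, hi⟩ := exists_max_image (∅ : Finset ι)ᶜ φ (hn _ (by simp))
  obtain ⟨k, k1, hk⟩ := exists_max_image ({i} : Finset ι)ᶜ φ (hn _ (by simp))
  obtain ⟨l, l1, hl⟩ := exists_max_image ({i, k} : Finset ι)ᶜ φ (hn _ card_le_two)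
  simp only [mem_compl, mem_insert, mem_singleton, not_or, notMem_empty, not_false_eq_true,
    forall_const] at hi k1 hk l1 hl
  have ik : i ≠ k := Ne.symm k1
  by_cases cU : ∀ a ∈ W, -(1 - 3 * e) ≤ P a i
  · have a1 := h.unif i cU
    have a2 := card1 i
    have a3 : 3 ^ 3 ≤ 3 ^ Fintype.card {j // j ≠ i} := Nat.pow_le_pow_right (by norm_num) (by omega)
    rw [← a2, pow_succ]
    omega
  by_cases cG : 6 * e * ∑ j, φ j < φ l
  · have := h.gen h0 ik (Ne.symm l1.1) (Ne.symm l1.2) (cG.trans_le (hi l))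
      (cG.trans_le (hk l l1.1)) cG
    omega
  push Not at cU cG
  set S := ∑ j : {j // j ≠ i ∧ j ≠ k}, φ j with hS
  have S0 : 0 ≤ S := sum_nonneg fun j _ => h0 j
  have S1 : S ≤ Fintype.card ι * φ l := by
    refine (sum_le_card_nsmul (univ : Finset {j // j ≠ i ∧ j ≠ k}) (fun j => φ j) (φ l)
      fun j _ => hl j j.2).trans ?_
    rw [nsmul_eq_mul, card_univ]
    exact mul_le_mul_of_nonneg_right (by exact_mod_cast Fintype.card_subtype_le _) (h0 l)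
  rw [sum2 ik, ← hS] at cG
  have S2 : S ≤ 6 / 47 * φ i := by
    have a1 := mul_le_mul_of_nonneg_left cG (Nat.cast_nonneg (α := ℝ) (Fintype.card ι))
    have a2 := mul_le_mul_of_nonneg_right e1 (show 0 ≤ φ i + φ k + S by linarith [h0 i, h0 k])
    linarith [hi k]
  have hdot : ∀ a ∈ W, φ ⬝ᵥ P a ≤ φ i * P a i + φ k * P a k + S := fun a ha => by
    rw [split2 ik]
    exact add_le_add le_rfl (sum_le_sum fun j _ =>
      mul_le_of_le_one_right (h0 j) (abs_le.1 (h.bd a ha j)).2)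
  obtain ⟨w, hw, hwi⟩ := cU
  have w1 := (h.pos w hw fun h0 => by rw [h0, Pi.zero_apply] at hwi; linarith).trans_le (hdot w hw)
  have w2 := mul_le_of_le_one_right (h0 k) (abs_le.1 (h.bd w hw k)).2
  have w3 := mul_le_mul_of_nonneg_left hwi.le (h0 i)
  have w4 : e * φ i ≤ 1 / 400 * φ i := mul_le_mul_of_nonneg_right e2 (h0 i)
  have i0 : 0 < φ i := by
    by_contra hc
    linarith [hi k, h0 i]
  refine h.tri ik (η := 3 * e + 12 / 47) (by linarith) (by linarith) (fun a ha => ?_) (h0 k) (hi k)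
    (by linarith)
  have a1 := (h.nonneg ha).trans (hdot a ha)
  have a2 := mul_le_mul_of_nonneg_left (abs_le.1 (h.bd a ha k)).1 (sub_nonneg.2 (hi k))
  exact le_of_mul_le_mul_left (by linarith) i0

theorem Cf.core (h : Cf e W P φ) (hd : 4 ≤ Fintype.card ι) :
    W.card ≤ 53 * 3 ^ (Fintype.card ι - 4) := by
  let s : ι → ℝ := fun j => if 0 ≤ φ j then 1 else -1
  have s1 : ∀ j, s j * s j = 1 := fun j => by simp only [s]; split_ifs <;> norm_num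
  have s2 : ∀ j (x : ℝ), |s j * x| = |x| := fun j x => by simp only [s]; split_ifs <;> simp
  have s3 : ∀ χ x : ι → ℝ, (fun j => s j * χ j) ⬝ᵥ (fun j => s j * x j) = χ ⬝ᵥ x := fun χ x =>
    sum_congr rfl fun j _ => by rw [mul_mul_mul_comm, s1, one_mul]
  have h' : Cf e W (fun a j => s j * P a j) fun j => s j * φ j := by
    refine ⟨h.e0, h.e1, h.e2, fun a ha j => (s2 _ _).trans_le (h.bd a ha j), fun a ha h0 => ?_,
      fun a ha b hb hab => ?_⟩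
    · rw [s3]
      exact h.pos a ha fun h1 => h0 (funext fun j => by simp [h1])
    · obtain ⟨ξ, ⟨a1, a2⟩, a3⟩ := h.sup a ha b hb hab
      refine ⟨fun j => s j * ξ j, ⟨fun c hc => by rw [s3]; exact a1 c hc, by simpa [s2] using a2⟩, ?_⟩
      rw [dotProduct_sub, s3, s3, ← dotProduct_sub]
      exact a3
  have := h'.core0 (fun j => by simp only [s]; split_ifs with g <;> linarith) hd
  obtain ⟨n, hn⟩ := Nat.exists_eq_add_of_le' hd
  rw [hn, pow_add] at this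
  rw [hn, Nat.add_sub_cancel]
  omega

end Pool.Agent.MP_39e5ce_co.NC

end
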