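import Mathlib

/-! Rounding of almost `1`-separated points of the cube to the cells `{-1, 0, 1}^n`. -/

noncomputable section

namespace Pool.Agent.MP_39e5ce_co.NC

open Finset Function

variable {α κ : Type} {e : ℝ} {T : Finset α} {P : α → κ → ℝ}

/-- rounding with the thresholds `s ≤ t` -/
def rd (s t x : ℝ) : SignType := if t < x then 1 else if x < s then -1 else 0

/-- the lattice point of a cell -/
def pt (r : κ → SignType) : κ → ℝ := fun j => (r j : ℝ)

/-- points of the cube with mutual sup distances at least `1 - e` -/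
structure Sp (e : ℝ) (T : Finset α) (P : α → κ → ℝ) : Prop where
  bd : ∀ a ∈ T, ∀ j, |P a j| ≤ 1
  sep : ∀ a ∈ T, ∀ b ∈ T, a ≠ b → ∃ j, 1 - e ≤ |P a j - P b j|

theorem rd_close {s t s' t' x y : ℝ} (hs : s ≤ -e) (hs' : s' ≤ -e) (ht : e ≤ t) (ht' : e ≤ t')
    (h1 : t - s' < 1 - e) (h2 : t' - s < 1 - e) (hx : |x| ≤ 1) (hy : |y| ≤ 1)
    (h : rd s t x = rd s' t' y) : |x - y| < 1 - e := by
  have := abs_le.1 hx
  have := abs_le.1 hy
  unfold rd at h
  rw [abs_lt]
  split_ifs at h <;> constructor <;> linarith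

theorem Sp.eq (h : Sp e T P) {s t s' t' : ℝ} (hs : s ≤ -e) (hs' : s' ≤ -e) (ht : e ≤ t)
    (ht' : e ≤ t') (h1 : t - s' < 1 - e) (h2 : t' - s < 1 - e) {a b : α} (ha : a ∈ T) (hb : b ∈ T)
    (hab : (fun j => rd s t (P a j)) = fun j => rd s' t' (P b j)) : a = b := by
  by_contra hne
  obtain ⟨j, hj⟩ := h.sep a ha b hb hne
  exact absurd (rd_close hs hs' ht ht' h1 h2 (h.bd a ha j) (h.bd b hb j) (congrFun hab j))
    (not_lt.2 hj)

variable [Fintype κ] [DecidableEq κ]

theorem card_cells : Fintype.card (κ → SignType) = 3 ^ Fintype.card κ := by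
  rw [Fintype.card_fun]; rfl

theorem card_le_cells (R : Finset (κ → SignType)) : R.card ≤ 3 ^ Fintype.card κ :=
  card_cells (κ := κ) ▸ card_le_univ R

theorem Sp.card_le (h : Sp e T P) (h1 : 3 * e < 1) : T.card ≤ 3 ^ Fintype.card κ := by
  rw [← card_cells, ← card_univ]
  exact card_le_card_of_injOn (fun a j => rd (-e) e (P a j)) (fun _ _ => by simp)
    fun a ha b hb hab => h.eq le_rfl le_rfl le_rfl le_rfl (by linarith) (by linarith) ha hb hab

open Classical in
/-- a point that moves inwards leaves an empty cell behind -/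
theorem Sp.moved (h : Sp e T P) {s t : ℝ} (hs : s ≤ -e) (ht : e ≤ t) (h1 : t - s < 1 - e) :
    (T.filter fun a => (fun j => rd s t (P a j)) ≠ fun j => rd (-e) e (P a j)).card + T.card ≤
      3 ^ Fintype.card κ := by
  set U := T.filter fun a => (fun j => rd s t (P a j)) ≠ fun j => rd (-e) e (P a j)
  have i1 : (U.image fun a j => rd (-e) e (P a j)).card = U.card :=
    card_image_of_injOn fun a ha b hb hab => h.eq le_rfl le_rfl le_rfl le_rfl (by linarith)
      (by linarith) (mem_filter.1 ha).1 (mem_filter.1 hb).1 hab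
  have i2 : (T.image fun a j => rd s t (P a j)).card = T.card :=
    card_image_of_injOn fun a ha b hb hab => h.eq hs hs ht ht h1 h1 ha hb hab
  rw [← i1, ← i2, ← card_union_of_disjoint]
  · exact card_le_cells _
  · refine disjoint_left.2 fun r h1' h2' => ?_
    obtain ⟨a, ha, rfl⟩ := mem_image.1 h1'
    obtain ⟨b, hb, hab⟩ := mem_image.1 h2'
    obtain ⟨ha, ha'⟩ := mem_filter.1 ha
    obtain rfl := h.eq hs le_rfl ht le_rfl (by linarith) (by linarith) hb ha hab
    exact ha' hab

/-- most cells contain a point that is close to the lattice point of the cell -/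
theorem Sp.pin (h : Sp e T P) (h0 : 0 < e) (h1 : 4 * e < 1) : ∃ G : Finset (κ → SignType),
    3 * T.card ≤ G.card + 2 * 3 ^ Fintype.card κ ∧
    ∀ r ∈ G, ∃ a ∈ T, ∀ j, |P a j - pt r j| ≤ 3 * e := by
  classical
  set U := T.filter fun a => ∀ j, |P a j - (rd (-e) e (P a j) : ℝ)| ≤ 3 * e with hU
  have m1 := h.moved (s := -e) (t := 1 - 3 * e) le_rfl (by linarith) (by linarith)
  have m2 := h.moved (s := -(1 - 3 * e)) (t := e) (by linarith) le_rfl (by linarith)
  refine ⟨U.image fun a j => rd (-e) e (P a j), ?_, fun r hr => ?_⟩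
  · have hc : (U.image fun a j => rd (-e) e (P a j)).card = U.card :=
      card_image_of_injOn fun a ha b hb hab => h.eq le_rfl le_rfl le_rfl le_rfl (by linarith)
        (by linarith) (mem_filter.1 ha).1 (mem_filter.1 hb).1 hab
    rw [hc]
    have hsub : T ⊆ U ∪ ((T.filter fun a => (fun j => rd (-e) (1 - 3 * e) (P a j)) ≠
        fun j => rd (-e) e (P a j)) ∪ (T.filter fun a => (fun j => rd (-(1 - 3 * e)) e (P a j)) ≠
        fun j => rd (-e) e (P a j))) := by
      intro a ha
      by_contra hn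
      simp only [hU, mem_union, mem_filter, ha, true_and, not_or, not_not, not_forall] at hn
      obtain ⟨⟨j, hj⟩, a1, a2⟩ := hn
      have b1 := congrFun a1 j
      have b2 := congrFun a2 j
      have := abs_le.1 (h.bd a ha j)
      refine hj ?_
      generalize P a j = x at *
      unfold rd at b1 b2 ⊢
      rw [abs_le]
      split_ifs at b1 b2 ⊢ <;>
        first | exact absurd b1 (by decide) | exact absurd b2 (by decide) |
          (simp only [SignType.coe_one, SignType.coe_zero, SignType.coe_neg_one]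
           constructor <;> linarith)
    have := (card_le_card hsub).trans ((card_union_le _ _).trans
      (Nat.add_le_add_left (card_union_le _ _) _))
    omega
  · obtain ⟨a, ha, rfl⟩ := mem_image.1 hr
    exact ⟨a, (mem_filter.1 ha).1, (mem_filter.1 ha).2⟩

theorem dot_update (χ : κ → ℝ) (r : κ → SignType) (i : κ) (s : SignType) :
    χ ⬝ᵥ pt (update r i s) = χ ⬝ᵥ pt (update r i 0) + χ i * s := by
  have key : ∀ s : SignType, χ ⬝ᵥ pt (update r i s) = χ i * s + ∑ j ∈ univ.erase i, χ j * r j := by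
    intro s
    rw [dotProduct, ← add_sum_erase _ _ (mem_univ i), pt, update_self]
    exact congrArg _ (sum_congr rfl fun j hj => by rw [pt, update_of_ne (ne_of_mem_erase hj)])
  rw [key, key]; simp [add_comm]

omit [DecidableEq κ] in
theorem dot_neg (χ : κ → ℝ) (r : κ → SignType) : χ ⬝ᵥ pt (-r) = -(χ ⬝ᵥ pt r) := by
  simp [dotProduct, pt]

/-- more than two thirds of the cells do not fit in a slightly shifted half space -/
theorem half (R : Finset (κ → SignType)) (hR : 2 * 3 ^ Fintype.card κ < 3 * R.card) (χ : κ → ℝ) :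
    ∃ r ∈ R, ‖χ‖ / 2 ≤ χ ⬝ᵥ pt r := by
  by_cases h0 : χ = 0
  · obtain ⟨r, hr⟩ := card_pos.1 (show 0 < R.card by omega)
    exact ⟨r, hr, by simp [h0]⟩
  obtain ⟨i₀, hi₀⟩ := ne_iff.1 h0
  obtain ⟨i, -, hi⟩ := exists_max_image univ (fun j => |χ j|) ⟨i₀, mem_univ _⟩
  have hM : ‖χ‖ = |χ i| := le_antisymm
    ((pi_norm_le_iff_of_nonneg (abs_nonneg _)).2 fun j => hi j (mem_univ j)) (norm_le_pi_norm χ i)
  have hi0 : χ i ≠ 0 := fun h => hi₀ (by simpa [h] using hi i₀ (mem_univ _))
  have hσ : SignType.sign (χ i) ≠ 0 := sign_ne_zero.2 hi0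
  by_contra hn
  push Not at hn
  let f : (κ → SignType) → (κ → SignType) × SignType := fun r =>
    (if -(‖χ‖ / 2) ≤ χ ⬝ᵥ pt (update r i 0) then update r i (SignType.sign (χ i))
      else -update r i 0, r i)
  have h1 : (univ : Finset (κ → SignType)).card ≤ (Rᶜ ×ˢ (univ : Finset SignType)).card := by
    refine card_le_card_of_injOn f (fun r _ => ?_) fun r _ r' _ hr => ?_
    · simp only [coe_product, Set.mem_prod, mem_coe, mem_compl, mem_univ, and_true, f]
      intro hm
      have := hn _ hm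
      split_ifs at this with hc
      · rw [dot_update, mul_comm, sign_mul_self, ← hM] at this; linarith
      · rw [dot_neg] at this; linarith
    · obtain ⟨a, b⟩ := Prod.ext_iff.1 hr
      funext j
      by_cases hj : j = i
      · rw [hj]; exact b
      have a1 := congrFun a j
      have a2 := congrFun a i
      simp only [f] at a1 a2
      split_ifs at a1 a2
      · simpa [hj] using a1
      · exact absurd (by simpa using a2) hσ
      · exact absurd (by simpa using a2.symm) hσ
      · simpa [hj] using a1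
  rw [card_product, card_compl, card_univ, card_univ, card_cells,
    show Fintype.card SignType = 3 from rfl] at h1
  have := card_le_cells R
  omega

omit [DecidableEq κ] in
theorem dot_le (χ x : κ → ℝ) {δ : ℝ} (h : ∀ j, |x j| ≤ δ) :
    χ ⬝ᵥ x ≤ Fintype.card κ * δ * ‖χ‖ := by
  refine (sum_le_card_nsmul _ _ (δ * ‖χ‖) fun j _ => ?_).trans (by simp [mul_assoc])
  refine (le_abs_self _).trans ?_
  rw [abs_mul, mul_comm]
  exact mul_le_mul (h j) (norm_le_pi_norm χ j) (abs_nonneg _) ((abs_nonneg _).trans (h j))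

/-- the same for points that are close to the lattice points -/
theorem half' (R : Finset (κ → SignType)) (hR : 2 * 3 ^ Fintype.card κ < 3 * R.card) (χ : κ → ℝ)
    (y : (κ → SignType) → κ → ℝ) (hy : ∀ r ∈ R, ∀ j, |y r j - pt r j| ≤ 3 * e)
    (he : Fintype.card κ * e ≤ 1 / 100) : ∃ r ∈ R, ‖χ‖ / 4 ≤ χ ⬝ᵥ y r := by
  obtain ⟨r, hr, h⟩ := half R hR χ
  refine ⟨r, hr, ?_⟩
  have h1 := dot_le χ (pt r - y r) (δ := 3 * e) fun j => by
    rw [Pi.sub_apply, abs_sub_comm]; exact hy r hr j
  rw [dotProduct_sub] at h1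
  nlinarith [norm_nonneg χ]

/-- a cover of the grid `3 × 3 × 3` by seven chains -/
def chain (a b c : SignType) : Fin 7 :=
  match a, b, c with
  | -1, -1, _ => 0 | -1, 0, 1 => 0 | -1, 1, 1 => 0 | 0, 1, 1 => 0 | 1, 1, 1 => 0
  | -1, 0, _ => 1 | -1, 1, 0 => 1 | 0, 1, 0 => 1 | 1, 1, 0 => 1
  | -1, 1, -1 => 2 | 0, 1, -1 => 2 | 1, 1, -1 => 2
  | 0, -1, _ => 3 | 0, 0, 1 => 3 | 1, 0, 1 => 3
  | 0, 0, _ => 4 | 1, 0, 0 => 4
  | 1, -1, _ => 5
  | 1, 0, -1 => 6

theorem chain_cmp : ∀ a b c a' b' c' : SignType, chain a b c = chain a' b' c' →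
    (a ≤ a' ∧ b ≤ b' ∧ c ≤ c') ∨ (a' ≤ a ∧ b' ≤ b ∧ c' ≤ c) := by decide

theorem coe_gap {a b : SignType} (h : a ≤ b) : (a : ℝ) ≤ b ∧ (a ≠ b → (a : ℝ) + 1 ≤ b) := by
  rcases a with _ | _ | _ <;> rcases b with _ | _ | _ <;>
    first | exact absurd h (by decide) | norm_num

/-- three large coefficients: few cells in a thin slab -/
theorem thin (φ : κ → ℝ) (h0 : ∀ j, 0 ≤ φ j) {i k l : κ} (ik : i ≠ k) (il : i ≠ l) (kl : k ≠ l)
    {t : ℝ} (hi : 2 * t < φ i) (hk : 2 * t < φ k) (hl : 2 * t < φ l) :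
    27 * (univ.filter fun r : κ → SignType => |φ ⬝ᵥ pt r| ≤ t).card ≤ 7 * 3 ^ Fintype.card κ := by
  set Z := univ.filter fun r : κ → SignType => |φ ⬝ᵥ pt r| ≤ t
  have key : ∀ r ∈ Z, ∀ r' ∈ Z, (∀ j, r j ≤ r' j) → (∀ j, j ≠ i → j ≠ k → j ≠ l → r j = r' j) →
      r = r' := by
    intro r hr r' hr' h1 h2
    by_contra hne
    obtain ⟨j, hj⟩ := ne_iff.1 hne
    have hj' : 2 * t < φ j := by
      by_contra hc
      exact hj (h2 j (fun h => hc (h ▸ hi)) (fun h => hc (h ▸ hk)) fun h => hc (h ▸ hl))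
    have a1 := abs_le.1 (mem_filter.1 hr).2
    have a2 := abs_le.1 (mem_filter.1 hr').2
    have a3 : φ j * (pt r' - pt r) j ≤ φ ⬝ᵥ (pt r' - pt r) :=
      single_le_sum (f := fun j => φ j * (pt r' - pt r) j)
        (fun j _ => mul_nonneg (h0 j) (sub_nonneg.2 (coe_gap (h1 j)).1)) (mem_univ j)
    have a4 : 1 ≤ (pt r' - pt r) j := le_sub_iff_add_le'.2 ((coe_gap (h1 j)).2 hj)
    rw [dotProduct_sub] at a3
    nlinarith [h0 j]
  have h1 : (Z ×ˢ (univ : Finset (SignType × SignType × SignType))).card ≤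
      (univ : Finset ((κ → SignType) × Fin 7)).card := by
    refine card_le_card_of_injOn (fun q => (update (update (update q.1 i q.2.1) k q.2.2.1) l
      q.2.2.2, chain (q.1 i) (q.1 k) (q.1 l))) (fun _ _ => by simp) ?_
    rintro ⟨r, a, b, c⟩ hr ⟨r', a', b', c'⟩ hr' h
    have hr : r ∈ Z := (mem_product.1 hr).1
    have hr' : r' ∈ Z := (mem_product.1 hr').1
    obtain ⟨h1, h2⟩ := Prod.ext_iff.1 h
    have e1 : a = a' := by simpa [ik, il] using congrFun h1 i
    have e2 : b = b' := by simpa [kl] using congrFun h1 k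
    have e3 : c = c' := by simpa using congrFun h1 l
    have e4 : ∀ j, j ≠ i → j ≠ k → j ≠ l → r j = r' j := fun j x y z => by
      simpa [x, y, z] using congrFun h1 j
    have e5 : ∀ r r' : κ → SignType, (∀ j, j ≠ i → j ≠ k → j ≠ l → r j = r' j) →
        r i ≤ r' i ∧ r k ≤ r' k ∧ r l ≤ r' l → ∀ j, r j ≤ r' j := by
      intro r r' g1 g2 j
      by_cases x : j = i
      · rw [x]; exact g2.1
      by_cases y : j = k
      · rw [y]; exact g2.2.1
      by_cases z : j = l
      · rw [z]; exact g2.2.2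
      exact (g1 j x y z).le
    have e6 : r = r' := by
      rcases chain_cmp _ _ _ _ _ _ h2 with g | g
      · exact key r hr r' hr' (e5 r r' e4 g) e4
      · exact (key r' hr' r hr (e5 r' r (fun j x y z => (e4 j x y z).symm) g)
          fun j x y z => (e4 j x y z).symm).symm
    rw [e1, e2, e3, e6]
  rw [card_product, card_univ, card_univ, Fintype.card_prod, Fintype.card_prod, Fintype.card_prod,
    card_cells, show Fintype.card SignType = 3 from rfl, Fintype.card_fin] at h1
  omega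

end Pool.Agent.MP_39e5ce_co.NC

end
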