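import Pool.Agent.MP_39e5ce_co.nc.Unif

/-! Configurations near the cube: two almost equal large coefficients, and the final count. -/

noncomputable section

namespace Pool.Agent.MP_39e5ce_co.NC

open Finset Function

variable {α ι : Type} [Fintype ι] [DecidableEq ι] {e : ℝ} {W : Finset α} {P : α → ι → ℝ}
  {φ : ι → ℝ}

theorem sum2 {M : Type} [AddCommMonoid M] {i k : ι} (ik : i ≠ k) (f : ι → M) :
    ∑ j, f j = f i + f k + ∑ j : {j // j ≠ i ∧ j ≠ k}, f j := by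
  rw [← add_sum_erase _ _ (mem_univ i), ← add_sum_erase _ _ (mem_erase.2 ⟨ik.symm, mem_univ k⟩),
    add_assoc, sum_subtype ((univ.erase i).erase k) (p := fun j => j ≠ i ∧ j ≠ k)
      (fun j => by simp [and_comm]) f]

theorem split2 {i k : ι} (ik : i ≠ k) (χ x : ι → ℝ) : χ ⬝ᵥ x = χ i * x i + χ k * x k +
    rs (fun j => j ≠ i ∧ j ≠ k) χ ⬝ᵥ rs (fun j => j ≠ i ∧ j ≠ k) x :=
  sum2 ik fun j => χ j * x j

theorem card2 {i k : ι} (ik : i ≠ k) :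
    Fintype.card {j // j ≠ i ∧ j ≠ k} + 2 = Fintype.card ι := by
  have := sum2 ik fun _ : ι => 1
  simp only [sum_const, card_univ, smul_eq_mul, mul_one] at this
  omega

omit [DecidableEq ι] in
theorem Cf.layer2 (h : Cf e W P φ) {i k : ι} {η : ℝ} (hs : ∀ a ∈ W, -η ≤ P a i + P a k)
    (q : ℝ → ℝ → Prop) [∀ x y, Decidable (q x y)]
    (hq : ∀ x y x' y' : ℝ, -1 ≤ x → x ≤ 1 → -1 ≤ y' → y ≤ 1 → -η ≤ x' + y' → q x y → q x' y' →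
      -1 ≤ x' → x' ≤ 1 → x - x' < 1 - e ∧ y - y' < 1 - e) :
    Sp e (W.filter fun a => q (P a i) (P a k)) fun a => rs (fun j => j ≠ i ∧ j ≠ k) (P a) := by
  refine h.layer _ (filter_subset _ W) fun a ha b hb j hj => ?_
  obtain ⟨ha, ha'⟩ := mem_filter.1 ha
  obtain ⟨hb, hb'⟩ := mem_filter.1 hb
  have a1 := abs_le.1 (h.bd a ha i)
  have a2 := abs_le.1 (h.bd a ha k)
  have b1 := abs_le.1 (h.bd b hb i)
  have b2 := abs_le.1 (h.bd b hb k)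
  have c1 := hq _ _ _ _ a1.1 a1.2 b2.1 a2.2 (hs b hb) ha' hb' b1.1 b1.2
  have c2 := hq _ _ _ _ b1.1 b1.2 a2.1 b2.2 (hs a ha) hb' ha' a1.1 a1.2
  rw [abs_lt]
  rcases not_and_or.1 hj with hj | hj <;> rw [not_not.1 hj] <;> constructor <;>
    linarith [c1.1, c1.2, c2.1, c2.2]

/-- full rows in the direction `k` make the facet flat, and then they are few -/
theorem Cf.rows (h : Cf e W P φ) {i k : ι} (ik : i ≠ k) {ψ₁ ψ₂ : ι → ℝ} (s1 : Su e W P ψ₁)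
    (s2 : Su e W P ψ₂)
    (hmax : ∀ a ∈ W, ∀ b ∈ W, a ≠ b → ∃ ξ, Su e W P ξ ∧ 1 ≤ ξ ⬝ᵥ (P a - P b) ∧ ξ k ≤ ψ₂ k)
    {u v : ℝ} (u0 : 0 ≤ u) (uv : u ≤ v) (hi : φ i = u * ψ₁ i + v * ψ₂ i)
    (hk : φ k = u * ψ₁ k + v * ψ₂ k) (R : Finset ({j // j ≠ i ∧ j ≠ k} → SignType))
    (a m b : ({j // j ≠ i ∧ j ≠ k} → SignType) → α)
    (hW : ∀ r ∈ R, a r ∈ W ∧ m r ∈ W ∧ b r ∈ W)
    (h1 : ∀ r ∈ R, 5 / 7 ≤ P (a r) i ∧ 5 / 7 ≤ P (m r) i ∧ 5 / 7 ≤ P (b r) i)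
    (h2 : ∀ r ∈ R, P (m r) k < P (a r) k ∧ P (b r) k < P (m r) k)
    (ha : ∀ r ∈ R, ∀ j, |rs _ (P (a r)) j - pt r j| ≤ 3 * e)
    (hm : ∀ r ∈ R, ∀ j, |rs _ (P (m r)) j - pt r j| ≤ 3 * e)
    (hb : ∀ r ∈ R, ∀ j, |rs _ (P (b r)) j - pt r j| ≤ 3 * e) :
    3 * R.card ≤ 2 * 3 ^ Fintype.card {j // j ≠ i ∧ j ≠ k} := by
  by_contra hR
  push Not at hR
  have hne : R.Nonempty := card_pos.1 (by omega)
  have e0 := h.e0
  have e2 := h.e2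
  have e1 : Fintype.card {j // j ≠ i ∧ j ≠ k} * e ≤ 1 / 100 :=
    (mul_le_mul_of_nonneg_right (by exact_mod_cast Fintype.card_subtype_le _) e0.le).trans h.e1
  obtain ⟨r, hr, hmx⟩ := exists_max_image R (fun r => 2 - ψ₂ ⬝ᵥ P (a r) + ψ₂ ⬝ᵥ P (b r)) hne
  set Δ := 2 - ψ₂ ⬝ᵥ P (a r) + ψ₂ ⬝ᵥ P (b r) with hΔ
  have key : ∀ x ∈ W, ∀ y ∈ W, 5 / 7 ≤ P x i → 5 / 7 ≤ P y i → P y k < P x k →
      (∀ j, |rs _ (P x) j - pt r j| ≤ 3 * e) → (∀ j, |rs _ (P y) j - pt r j| ≤ 3 * e) →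
      1 - ψ₂ ⬝ᵥ (P x - P y) ≤ 2 / 5 * Δ := by
    intro x hx y hy x1 y1 xy x2 y2
    have hne : x ≠ y := fun h0 => by rw [h0] at xy; exact lt_irrefl _ xy
    have x3 := (abs_le.1 (h.bd x hx i)).2
    have y3 := (abs_le.1 (h.bd y hy i)).2
    have hu : ∀ j, |rs (fun j => j ≠ i ∧ j ≠ k) (P x - P y) j| ≤ 6 * e := fun j => by
      have a1 := abs_le.1 (x2 j)
      have a2 := abs_le.1 (y2 j)
      simp only [rs, Pi.sub_apply] at a1 a2 ⊢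
      rw [abs_le]
      constructor <;> linarith
    have hs : 1 - e ≤ P x k - P y k := by
      obtain ⟨j, hj⟩ := h.sep hx hy hne
      by_cases hjk : j = k
      · rwa [hjk, abs_of_pos (by linarith)] at hj
      by_cases hji : j = i
      · rw [hji, le_abs] at hj
        rcases hj with hj | hj <;> linarith
      · have := hu ⟨j, hji, hjk⟩
        simp only [rs, Pi.sub_apply] at this
        linarith
    obtain ⟨ξ, ⟨hξ, -⟩, hξ1, hξ2⟩ := hmax x hx y hy hne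
    obtain ⟨s, hs', b1⟩ := half' R hR (rs _ (ξ - ψ₂)) (fun r => rs _ (P (a r))) ha e1
    obtain ⟨t, ht', b2⟩ := half' R hR (-rs _ (ξ - ψ₂)) (fun r => rs _ (P (b r))) hb e1
    rw [norm_neg, neg_dotProduct] at b2
    have c1 : (ξ - ψ₂) ⬝ᵥ P (a s) ≤ Δ := by
      rw [sub_dotProduct]
      linarith [hmx s hs', (abs_le.1 (hξ _ (hW s hs').1)).2, (abs_le.1 (s2.1 _ (hW s hs').2.2)).1]
    have c2 : -Δ ≤ (ξ - ψ₂) ⬝ᵥ P (b t) := by
      rw [sub_dotProduct]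
      linarith [hmx t ht', (abs_le.1 (hξ _ (hW t ht').2.2)).1, (abs_le.1 (s2.1 _ (hW t ht').1)).2]
    have c3 : 1 - ψ₂ ⬝ᵥ (P x - P y) ≤ (ξ - ψ₂) ⬝ᵥ (P x - P y) := by
      rw [sub_dotProduct]; linarith
    rw [split2 ik] at c1 c2
    rw [split2 ik (ξ - ψ₂), Pi.sub_apply (P x), Pi.sub_apply (P x)] at c3
    have c4 := dot_le (rs (fun j => j ≠ i ∧ j ≠ k) (ξ - ψ₂)) _ hu
    have c5 := norm_nonneg (rs (fun j => j ≠ i ∧ j ≠ k) (ξ - ψ₂))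
    have c6 : (ξ - ψ₂) k ≤ 0 := sub_nonpos.2 hξ2
    have c7 := mul_le_mul_of_nonneg_right e1 c5
    have d1 := (abs_le.1 (h.bd _ (hW s hs').1 k)).2
    have d2 := (abs_le.1 (h.bd _ (hW t ht').2.2 k)).1
    have d3 := (h1 s hs').1
    have d4 := (h1 t ht').2.2
    generalize (ξ - ψ₂) i = ci at *
    generalize (ξ - ψ₂) k = ck at *
    generalize ‖rs (fun j => j ≠ i ∧ j ≠ k) (ξ - ψ₂)‖ = M at *
    have f1 : ck ≤ ck * P (a s) k := by nlinarith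
    have f2 : ck * P (b t) k ≤ -ck := by nlinarith
    have f3 : ck * (P x k - P y k) ≤ 2 / 5 * ck := by nlinarith
    rcases le_total 0 ci with g | g
    · have f4 : 5 / 7 * ci ≤ ci * P (a s) i := by nlinarith
      have f5 : ci * (P x i - P y i) ≤ 2 / 7 * ci := by nlinarith
      linarith
    · have f4 : ci * P (b t) i ≤ 5 / 7 * ci := by nlinarith
      have f5 : ci * (P x i - P y i) ≤ -(2 / 7 * ci) := by nlinarith
      linarith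
  have k1 := key _ (hW r hr).1 _ (hW r hr).2.1 (h1 r hr).1 (h1 r hr).2.1 (h2 r hr).1 (ha r hr)
    (hm r hr)
  have k2 := key _ (hW r hr).2.1 _ (hW r hr).2.2 (h1 r hr).2.1 (h1 r hr).2.2 (h2 r hr).2 (hm r hr)
    (hb r hr)
  rw [dotProduct_sub] at k1 k2
  obtain ⟨t, ht, b1⟩ := half' R hR (-rs _ (φ - u • ψ₁ - v • ψ₂)) (fun r => rs _ (P (b r))) hb e1
  rw [neg_dotProduct] at b1
  have b2 := h.pos _ (hW t ht).2.2 fun h0 => by
    have := (h1 t ht).2.2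
    rw [h0, Pi.zero_apply] at this
    linarith
  have b3 := split2 ik (φ - u • ψ₁ - v • ψ₂) (P (b t))
  have b4 : (φ - u • ψ₁ - v • ψ₂) i = 0 := by simp [hi]
  have b5 : (φ - u • ψ₁ - v • ψ₂) k = 0 := by simp [hk]
  rw [b4, b5, sub_dotProduct, sub_dotProduct, smul_dotProduct, smul_dotProduct, smul_eq_mul,
    smul_eq_mul] at b3
  have b6 : ψ₂ ⬝ᵥ P (b t) ≤ -1 := by linarith [hmx t ht, (abs_le.1 (s2.1 _ (hW t ht).1)).2]
  have b7 := mul_le_mul_of_nonneg_left b6 (u0.trans uv)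
  have b8 := mul_le_mul_of_nonneg_left (abs_le.1 (s1.1 _ (hW t ht).2.2)).2 u0
  linarith [norm_nonneg (-rs (fun j => j ≠ i ∧ j ≠ k) (φ - u • ψ₁ - v • ψ₂))]

theorem Cf.tri0 (h : Cf e W P φ) {i k : ι} (ik : i ≠ k) {η : ℝ} (η0 : 0 ≤ η)
    (η1 : η + 3 * e ≤ 2 / 7) (hs : ∀ a ∈ W, -η ≤ P a i + P a k) {ψ₁ ψ₂ : ι → ℝ}
    (s1 : Su e W P ψ₁) (s2 : Su e W P ψ₂)
    (hmax : ∀ a ∈ W, ∀ b ∈ W, a ≠ b → ∃ ξ, Su e W P ξ ∧ 1 ≤ ξ ⬝ᵥ (P a - P b) ∧ ξ k ≤ ψ₂ k)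
    {u v : ℝ} (u0 : 0 ≤ u) (uv : u ≤ v) (hi : φ i = u * ψ₁ i + v * ψ₂ i)
    (hk : φ k = u * ψ₁ k + v * ψ₂ k) :
    9 * W.card ≤ 53 * 3 ^ Fintype.card {j // j ≠ i ∧ j ≠ k} := by
  classical
  have e0 := h.e0
  have e2 := h.e2
  have sA := h.layer2 hs (fun x y => 1 - (η + 3 * e) < x ∧ e < y)
    fun x y x' y' _ _ _ _ _ ⟨_, _⟩ ⟨_, _⟩ _ _ => ⟨by linarith, by linarith⟩
  have sM := h.layer2 hs (fun x y => 1 - (η + 3 * e) < x ∧ -(1 - 3 * e) ≤ y ∧ y ≤ e)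
    fun x y x' y' _ _ _ _ _ ⟨_, _, _⟩ ⟨_, _, _⟩ _ _ => ⟨by linarith, by linarith⟩
  have sB := h.layer2 hs (fun x y => 1 - (η + 3 * e) < x ∧ y < -(1 - 3 * e))
    fun x y x' y' _ _ _ _ _ ⟨_, _⟩ ⟨_, _⟩ _ _ => ⟨by linarith, by linarith⟩
  have sC := h.layer2 hs (fun x y => -(η + e) ≤ x ∧ x ≤ 1 - (η + 3 * e) ∧ y ≤ e)
    fun x y x' y' _ _ _ _ _ ⟨_, _, _⟩ ⟨_, _, _⟩ _ _ => ⟨by linarith, by linarith⟩
  have sD := h.layer2 hs (fun x y => -(η + e) ≤ x ∧ x ≤ 1 - (η + 3 * e) ∧ e < y)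
    fun x y x' y' _ _ _ _ _ ⟨_, _, _⟩ ⟨_, _, _⟩ _ _ => ⟨by linarith, by linarith⟩
  have sF := h.layer2 hs (fun x _ => x < -(η + e))
    fun x y x' y' _ _ _ _ _ _ _ _ _ => ⟨by linarith, by linarith⟩
  obtain ⟨GA, a1, a2⟩ := sA.pin e0 (by linarith)
  obtain ⟨GM, m1, m2⟩ := sM.pin e0 (by linarith)
  obtain ⟨GB, b1, b2⟩ := sB.pin e0 (by linarith)
  have cC := sC.card_le (by linarith)
  have cD := sD.card_le (by linarith)
  have cF := sF.card_le (by linarith)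
  have c1 := card_union_add_card_inter GA GM
  have c2 := card_le_cells (GA ∪ GM)
  have c3 := card_union_add_card_inter (GA ∩ GM) GB
  have c4 := card_le_cells (GA ∩ GM ∪ GB)
  have c5 : 3 * (GA ∩ GM ∩ GB).card ≤ 2 * 3 ^ Fintype.card {j // j ≠ i ∧ j ≠ k} := by
    rcases (GA ∩ GM ∩ GB).eq_empty_or_nonempty with h0 | ⟨r, hr⟩
    · simp [h0]
    have gA : ∀ r ∈ GA ∩ GM ∩ GB, r ∈ GA := fun r hr => (mem_inter.1 (mem_inter.1 hr).1).1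
    have gM : ∀ r ∈ GA ∩ GM ∩ GB, r ∈ GM := fun r hr => (mem_inter.1 (mem_inter.1 hr).1).2
    have gB : ∀ r ∈ GA ∩ GM ∩ GB, r ∈ GB := fun r hr => (mem_inter.1 hr).2
    have : Nonempty α := ⟨(a2 r (gA r hr)).choose⟩
    choose! a a3 a4 using a2
    choose! m m3 m4 using m2
    choose! b b3 b4 using b2
    simp only [mem_filter] at a3 m3 b3
    refine h.rows ik s1 s2 hmax u0 uv hi hk _ a m b
      (fun r hr => ⟨(a3 r (gA r hr)).1, (m3 r (gM r hr)).1, (b3 r (gB r hr)).1⟩)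
      (fun r hr => ?_) (fun r hr => ?_) (fun r hr => a4 r (gA r hr)) (fun r hr => m4 r (gM r hr))
      fun r hr => b4 r (gB r hr)
    · exact ⟨by linarith [(a3 r (gA r hr)).2.1], by linarith [(m3 r (gM r hr)).2.1],
        by linarith [(b3 r (gB r hr)).2.1]⟩
    · exact ⟨by linarith [(a3 r (gA r hr)).2.2, (m3 r (gM r hr)).2.2.2],
        by linarith [(b3 r (gB r hr)).2.2, (m3 r (gM r hr)).2.2.1]⟩
  have c6 := card_le_card (show W ⊆ _ ∪ (_ ∪ (_ ∪ (_ ∪ (_ ∪ _)))) from fun a ha => by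
    simp only [mem_union]
    by_cases x1 : 1 - (η + 3 * e) < P a i
    · by_cases y1 : e < P a k
      · exact Or.inl (mem_filter.2 ⟨ha, (⟨x1, y1⟩ : 1 - (η + 3 * e) < P a i ∧ e < P a k)⟩)
      by_cases y2 : P a k < -(1 - 3 * e)
      · exact Or.inr (Or.inl (mem_filter.2
          ⟨ha, (⟨x1, y2⟩ : 1 - (η + 3 * e) < P a i ∧ P a k < -(1 - 3 * e))⟩))
      · exact Or.inr (Or.inr (Or.inl (mem_filter.2 ⟨ha, (⟨x1, not_lt.1 y2, not_lt.1 y1⟩ :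
          1 - (η + 3 * e) < P a i ∧ -(1 - 3 * e) ≤ P a k ∧ P a k ≤ e)⟩)))
    by_cases x2 : P a i < -(η + e)
    · exact Or.inr (Or.inr (Or.inr (Or.inl (mem_filter.2 ⟨ha, x2⟩))))
    by_cases y1 : e < P a k
    · exact Or.inr (Or.inr (Or.inr (Or.inr (Or.inl (mem_filter.2 ⟨ha,
        (⟨not_lt.1 x2, not_lt.1 x1, y1⟩ :
          -(η + e) ≤ P a i ∧ P a i ≤ 1 - (η + 3 * e) ∧ e < P a k)⟩)))))
    · exact Or.inr (Or.inr (Or.inr (Or.inr (Or.inr (mem_filter.2 ⟨ha,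
        (⟨not_lt.1 x2, not_lt.1 x1, not_lt.1 y1⟩ :
          -(η + e) ≤ P a i ∧ P a i ≤ 1 - (η + 3 * e) ∧ P a k ≤ e)⟩))))))
  have c7 := c6.trans ((card_union_le _ _).trans (Nat.add_le_add_left ((card_union_le _ _).trans
    (Nat.add_le_add_left ((card_union_le _ _).trans (Nat.add_le_add_left ((card_union_le _ _).trans
      (Nat.add_le_add_left (card_union_le _ _) _)) _)) _)) _))
  omega

end Pool.Agent.MP_39e5ce_co.NC

end
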