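import Pool.Agent.MP_39e5ce_co.nc.Round

/-! Configurations near the cube: the case of two layers and the case of three large
coefficients. -/

noncomputable section

namespace Pool.Agent.MP_39e5ce_co.NC

open Finset Function

variable {α ι : Type} [Fintype ι] {e : ℝ} {W : Finset α} {P : α → ι → ℝ} {φ : ι → ℝ}

/-- a functional that is bounded by one on the points and on the small cube -/
def Su (e : ℝ) (W : Finset α) (P : α → ι → ℝ) (ξ : ι → ℝ) : Prop :=
  (∀ c ∈ W, |ξ ⬝ᵥ P c| ≤ 1) ∧ ∑ j, |ξ j| ≤ 1 + e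

/-- the centres of a one-sided family, in the coordinates of the cube -/
structure Cf (e : ℝ) (W : Finset α) (P : α → ι → ℝ) (φ : ι → ℝ) : Prop where
  e0 : 0 < e
  e1 : Fintype.card ι * e ≤ 1 / 100
  e2 : e ≤ 1 / 400
  bd : ∀ a ∈ W, ∀ j, |P a j| ≤ 1
  pos : ∀ a ∈ W, P a ≠ 0 → 0 < φ ⬝ᵥ P a
  sup : ∀ a ∈ W, ∀ b ∈ W, a ≠ b → ∃ ξ, Su e W P ξ ∧ 1 ≤ ξ ⬝ᵥ (P a - P b)

theorem Cf.nonneg (h : Cf e W P φ) {a : α} (ha : a ∈ W) : 0 ≤ φ ⬝ᵥ P a := by
  by_cases h0 : P a = 0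
  · simp [h0]
  · exact (h.pos a ha h0).le

theorem Cf.sep (h : Cf e W P φ) {a b : α} (ha : a ∈ W) (hb : b ∈ W) (hab : a ≠ b) :
    ∃ j, 1 - e ≤ |P a j - P b j| := by
  by_contra hn
  push Not at hn
  obtain ⟨ξ, ⟨-, h1⟩, h2⟩ := h.sup a ha b hb hab
  have h3 : ξ ⬝ᵥ (P a - P b) ≤ (∑ j, |ξ j|) * (1 - e) := by
    rw [sum_mul]
    refine sum_le_sum fun j _ => (le_abs_self _).trans ?_
    rw [abs_mul]
    exact mul_le_mul_of_nonneg_left (hn j).le (abs_nonneg _)
  nlinarith [h.e0, h.e2]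

/-- restriction to some coordinates -/
def rs (p : ι → Prop) (x : ι → ℝ) : Subtype p → ℝ := fun j => x j

theorem Cf.layer (h : Cf e W P φ) (p : ι → Prop) {T : Finset α} (hT : T ⊆ W)
    (hc : ∀ a ∈ T, ∀ b ∈ T, ∀ j, ¬ p j → |P a j - P b j| < 1 - e) :
    Sp e T fun a => rs p (P a) := by
  refine ⟨fun a ha j => h.bd a (hT ha) j, fun a ha b hb hab => ?_⟩
  obtain ⟨j, hj⟩ := h.sep (hT ha) (hT hb) hab
  exact ⟨⟨j, by_contra fun hp => absurd (hc a ha b hb j hp) (not_lt.2 hj)⟩, hj⟩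

variable [DecidableEq ι]

theorem split1 (i : ι) (χ x : ι → ℝ) :
    χ ⬝ᵥ x = χ i * x i + rs (· ≠ i) χ ⬝ᵥ rs (· ≠ i) x :=
  Fintype.sum_eq_add_sum_subtype_ne (fun j => χ j * x j) i

theorem card1 (i : ι) : Fintype.card {j // j ≠ i} + 1 = Fintype.card ι := by
  have := Fintype.sum_eq_add_sum_subtype_ne (fun _ : ι => 1) i
  simp only [sum_const, card_univ, smul_eq_mul, mul_one] at this
  omega

theorem pt_ne {κ : Type} {r : κ → SignType} (h : r ≠ 0) : ∃ j, |pt r j| = 1 := by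
  obtain ⟨j, hj⟩ := ne_iff.1 h
  refine ⟨j, ?_⟩
  unfold pt
  rcases hr : r j with _ | _ | _
  · exact absurd hr hj
  · simp
  · simp

/-- two layers -/
theorem Cf.unif (h : Cf e W P φ) (i : ι) (hi : ∀ a ∈ W, -(1 - 3 * e) ≤ P a i) :
    9 * W.card ≤ 17 * 3 ^ Fintype.card {j // j ≠ i} + 3 := by
  classical
  have e0 := h.e0
  have e2 := h.e2
  have e1 : Fintype.card {j // j ≠ i} * e ≤ 1 / 100 :=
    (mul_le_mul_of_nonneg_right (by exact_mod_cast Fintype.card_subtype_le _) e0.le).trans h.e1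
  have sT := h.layer (· ≠ i) (filter_subset (fun a => e < P a i) W) fun a ha b hb j hj => by
    obtain rfl := not_not.1 hj
    obtain ⟨ha, ha'⟩ := mem_filter.1 ha
    obtain ⟨hb, hb'⟩ := mem_filter.1 hb
    rw [abs_lt]
    constructor <;> linarith [(abs_le.1 (h.bd a ha j)).2, (abs_le.1 (h.bd b hb j)).2]
  have sM := h.layer (· ≠ i) (filter_subset (fun a => ¬ e < P a i) W) fun a ha b hb j hj => by
    obtain rfl := not_not.1 hj
    obtain ⟨ha, ha'⟩ := mem_filter.1 ha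
    obtain ⟨hb, hb'⟩ := mem_filter.1 hb
    rw [abs_lt]
    constructor <;> linarith [hi a ha, hi b hb]
  obtain ⟨GT, t1, t2⟩ := sT.pin e0 (by linarith)
  obtain ⟨GM, m1, m2⟩ := sM.pin e0 (by linarith)
  have c1 := card_filter_add_card_filter_not (s := W) fun a => e < P a i
  have c2 := card_union_add_card_inter GT GM
  have c3 := card_le_cells (GT ∪ GM)
  have c4 := pred_card_le_card_erase (s := GT ∩ GM) (a := 0)
  set R := (GT ∩ GM).erase 0
  suffices 3 * R.card ≤ 2 * 3 ^ Fintype.card {j // j ≠ i} by omega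
  by_contra hR
  push Not at hR
  have hne : R.Nonempty := card_pos.1 (by omega)
  have hRT : ∀ r ∈ R, r ∈ GT := fun r hr => (mem_inter.1 (mem_of_mem_erase hr)).1
  have : Nonempty α := ⟨(t2 _ (hRT _ hne.choose_spec)).choose⟩
  choose! y hy1 hy2 using t2
  obtain ⟨r, hr, hmin⟩ := exists_min_image R (fun r => φ ⬝ᵥ P (y r)) hne
  obtain ⟨x, hx1, hx2⟩ := m2 r (mem_inter.1 (mem_of_mem_erase hr)).2
  obtain ⟨hxW, hxi⟩ := mem_filter.1 hx1
  obtain ⟨hyW, hyi⟩ := mem_filter.1 (hy1 r (hRT r hr))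
  have hx0 : P x ≠ 0 := fun h0 => by
    obtain ⟨j, hj⟩ := pt_ne (ne_of_mem_erase hr)
    have := hx2 j
    simp only [rs, h0, Pi.zero_apply, zero_sub, abs_neg, hj] at this
    linarith
  have hyx : y r ≠ x := fun h0 => hxi (h0 ▸ hyi)
  have hu : ∀ j, |rs (· ≠ i) (P (y r) - P x) j| ≤ 6 * e := fun j => by
    have a1 := abs_le.1 (hx2 j)
    have a2 := abs_le.1 (hy2 r (hRT r hr) j)
    simp only [rs, Pi.sub_apply] at a1 a2 ⊢
    rw [abs_le]
    constructor <;> linarith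
  have hs : 1 - e ≤ P (y r) i - P x i := by
    obtain ⟨j, hj⟩ := h.sep hyW hxW hyx
    by_cases hji : j = i
    · rwa [hji, abs_of_pos (by linarith)] at hj
    · have := hu ⟨j, hji⟩
      simp only [rs, Pi.sub_apply] at this
      linarith
  obtain ⟨ξ, ⟨hξ, -⟩, hξ'⟩ := h.sup _ hyW _ hxW hyx
  have a0 := h.nonneg hyW
  have a1 := h.pos x hxW hx0
  set a := φ ⬝ᵥ P (y r) with ha
  obtain ⟨t, ht, b1⟩ := half' R hR (rs (· ≠ i) (a • ξ - φ)) (fun r => rs (· ≠ i) (P (y r)))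
    (fun r hr => hy2 r (hRT r hr)) e1
  obtain ⟨htW, hti⟩ := mem_filter.1 (hy1 t (hRT t ht))
  have b2 : (a • ξ - φ) ⬝ᵥ P (y t) ≤ 0 := by
    rw [sub_dotProduct, smul_dotProduct, smul_eq_mul]
    nlinarith [hmin t ht, (abs_le.1 (hξ _ htW)).2]
  have b3 : 0 < (a • ξ - φ) ⬝ᵥ (P (y r) - P x) := by
    rw [sub_dotProduct, smul_dotProduct, smul_eq_mul, dotProduct_sub φ]
    nlinarith
  rw [split1 i] at b2 b3
  have b4 := dot_le (rs (· ≠ i) (a • ξ - φ)) _ hu
  have b5 := norm_nonneg (rs (· ≠ i) (a • ξ - φ))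
  have b6 := (abs_le.1 (h.bd _ htW i)).2
  rw [Pi.sub_apply (P (y r))] at b3
  generalize (a • ξ - φ) i = c at *
  generalize ‖rs (· ≠ i) (a • ξ - φ)‖ = M at *
  have c0 : c ≤ 0 := by
    by_contra hc
    have := mul_pos (not_le.1 hc) (e0.trans hti)
    linarith
  have c5 : c ≤ -(M / 4) := by nlinarith
  nlinarith [mul_le_mul_of_nonneg_right e1 b5]

/-- three large coefficients -/
theorem Cf.gen (h : Cf e W P φ) (h0 : ∀ j, 0 ≤ φ j) {i k l : ι} (ik : i ≠ k) (il : i ≠ l)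
    (kl : k ≠ l) (hi : 6 * e * ∑ j, φ j < φ i) (hk : 6 * e * ∑ j, φ j < φ k)
    (hl : 6 * e * ∑ j, φ j < φ l) : 54 * W.card ≤ 34 * 3 ^ Fintype.card ι := by
  have e0 := h.e0
  have e2 := h.e2
  set t := 3 * e * ∑ j, φ j with ht
  have z := thin φ h0 ik il kl (t := t) (by linarith) (by linarith) (by linarith)
  have sp : Sp e W P := ⟨h.bd, fun a ha b hb => h.sep ha hb⟩
  set S := univ.filter fun r : ι → SignType => -t ≤ φ ⬝ᵥ pt r
  set S' := univ.filter fun r : ι → SignType => φ ⬝ᵥ pt r ≤ t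
  have c1 : W.card ≤ S.card := by
    refine card_le_card_of_injOn (fun a j => rd (-(1 - 3 * e)) e (P a j)) (fun a ha => ?_)
      fun a ha b hb hab => sp.eq (by linarith) (by linarith) le_rfl le_rfl (by linarith)
        (by linarith) ha hb hab
    refine mem_coe.2 (mem_filter.2 ⟨mem_univ _, ?_⟩)
    have a1 := h.nonneg ha
    have a2 : φ ⬝ᵥ P a - t ≤ φ ⬝ᵥ pt fun j => rd (-(1 - 3 * e)) e (P a j) := by
      rw [ht, mul_sum, dotProduct, ← sum_sub_distrib]
      refine sum_le_sum fun j _ => ?_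
      have a3 : P a j - 3 * e ≤ pt (fun j => rd (-(1 - 3 * e)) e (P a j)) j := by
        have := abs_le.1 (h.bd a ha j)
        unfold pt rd
        dsimp only
        split_ifs <;> simp only [SignType.coe_one, SignType.coe_zero, SignType.coe_neg_one] <;>
          linarith
      nlinarith [h0 j]
    linarith
  have c2 : S.card ≤ S'.card := by
    refine card_le_card_of_injOn (fun r => -r) (fun r hr => ?_) fun r _ r' _ => neg_injective.eq_iff.1
    have := (mem_filter.1 hr).2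
    refine mem_coe.2 (mem_filter.2 ⟨mem_univ _, ?_⟩)
    rw [dot_neg]
    linarith
  have c3 := card_union_add_card_inter S S'
  have c4 := card_le_cells (S ∪ S')
  have c5 : (S ∩ S').card ≤ (univ.filter fun r : ι → SignType => |φ ⬝ᵥ pt r| ≤ t).card :=
    card_le_card fun r hr => mem_filter.2 ⟨mem_univ _, abs_le.2
      ⟨(mem_filter.1 (mem_inter.1 hr).1).2, (mem_filter.1 (mem_inter.1 hr).2).2⟩⟩
  omega

end Pool.Agent.MP_39e5ce_co.NC

end
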